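import Pool.Agent.Helper20_BC.Jen
import Pool.Agent.BC.Stmts

/-!
# BC: symmetrization
-/

set_option autoImplicit false

open Finset

noncomputable section

namespace Pool.Agent.BC.H9

/-- the sign -/
def si (b : Bool) : ℝ := if b then (1 : ℝ) else -1

/-- exchange the two copies in the coordinates where `e` is false -/
def sw {ι α : Type} (e : ι → Bool) (p : (ι → α) × (ι → α)) : (ι → α) × (ι → α) :=
  (fun i => if e i then p.1 i else p.2 i, fun i => if e i then p.2 i else p.1 i)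

theorem sw_inv {ι α : Type} (e : ι → Bool) : Function.Involutive (sw (α := α) e) := by
  rintro ⟨a, b⟩
  refine Prod.ext ?_ ?_
  · funext i
    cases h : e i <;> simp [sw, h]
  · funext i
    cases h : e i <;> simp [sw, h]

variable {X : Type} [NormedAddCommGroup X] [NormedSpace ℝ X]

theorem sg_sub {n : ℕ} (z w : Fin n → X) : sg (fun i => z i - w i) ≤ sg z + sg w := by
  unfold sg
  rw [← mul_add, ← Finset.sum_add_distrib]
  refine mul_le_mul_of_nonneg_left (Finset.sum_le_sum fun e _ => ?_) (by positivity)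
  have : ∑ i, (if e i then (1 : ℝ) else -1) • (z i - w i) =
      ∑ i, (if e i then (1 : ℝ) else -1) • z i - ∑ i, (if e i then (1 : ℝ) else -1) • w i := by
    rw [← Finset.sum_sub_distrib]
    exact Finset.sum_congr rfl fun i _ => smul_sub _ _ _
  rw [this]
  exact norm_sub_le _ _

/-- symmetrization of an antisymmetric sum -/
theorem sym_sum {t N : ℕ} (f : Fin t → Fin N → X) :
    ∑ p : (Fin t → Fin N) × (Fin t → Fin N), ‖∑ i, (f i (p.1 i) - f i (p.2 i))‖ =
      ∑ p : (Fin t → Fin N) × (Fin t → Fin N), sg (fun i => f i (p.1 i) - f i (p.2 i)) := by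
  have h1 : ∀ e : Fin t → Bool,
      ∑ p : (Fin t → Fin N) × (Fin t → Fin N), ‖∑ i, (f i (p.1 i) - f i (p.2 i))‖ =
        ∑ p : (Fin t → Fin N) × (Fin t → Fin N),
          ‖∑ i, (if e i then (1 : ℝ) else -1) • (f i (p.1 i) - f i (p.2 i))‖ := by
    intro e
    have h := Equiv.sum_comp (Function.Involutive.toPerm (sw (α := Fin N) e) (sw_inv e))
      (fun p => ‖∑ i, (f i (p.1 i) - f i (p.2 i))‖)
    rw [← h]
    refine Finset.sum_congr rfl fun p _ => ?_
    congr 1
    refine Finset.sum_congr rfl fun i _ => ?_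
    show f i (if e i then p.1 i else p.2 i) - f i (if e i then p.2 i else p.1 i) = _
    cases h : e i <;> simp
  unfold sg
  rw [← Finset.mul_sum, Finset.sum_comm, ← Finset.sum_congr rfl (fun e _ => h1 e),
    Finset.sum_const, Finset.card_univ, Fintype.card_fun, Fintype.card_bool, Fintype.card_fin,
    nsmul_eq_mul]
  push_cast
  rw [← mul_assoc, inv_mul_cancel₀ (by positivity), one_mul]

/-- SGN -/
theorem sgn : SgnStmt := by
  intro X _ _ x hx M γ hRC r n c
  unfold QP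
  refine ciSup_le fun m => ?_
  set θ : ℝ := ((1 : ℝ) / 2) ^ r with hθ
  obtain ⟨-, -, -, hJ⟩ := H20.jen X x hx
  have hJc : av m (fun d => J x (n + m) d (fun _ => θ)) c = J x n c (fun _ => θ) :=
    (hJ (2 ^ r) n m c (fun _ => θ)).1
  -- the number of the descendants
  set N : ℝ := ((2 : ℝ) ^ m) ^ (2 ^ r) with hN
  have hN0 : 0 < N := by positivity
  have hcard : ((Fintype.card (Fin (2 ^ r) → Fin (2 ^ m)) : ℕ) : ℝ) = N := by
    rw [Fintype.card_fun, Fintype.card_fin, Fintype.card_fin]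
    push_cast
    rfl
  let f : Fin (2 ^ r) → Fin (2 ^ m) → X := fun i k => θ • x (n + m) (2 ^ m * c i + (k : ℕ))
  have hf : ∀ q : Fin (2 ^ r) → Fin (2 ^ m), J x (n + m) (dt m c q) (fun _ => θ) =
      ∑ i, f i (q i) := fun q => rfl
  -- Jensen
  have h1 : ∀ q : Fin (2 ^ r) → Fin (2 ^ m),
      ‖J x (n + m) (dt m c q) (fun _ => θ) - J x n c (fun _ => θ)‖ ≤
        N⁻¹ * ∑ q' : Fin (2 ^ r) → Fin (2 ^ m), ‖∑ i, (f i (q i) - f i (q' i))‖ := by
    intro q
    have e1 : J x (n + m) (dt m c q) (fun _ => θ) - J x n c (fun _ => θ) =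
        N⁻¹ • ∑ q' : Fin (2 ^ r) → Fin (2 ^ m), ∑ i, (f i (q i) - f i (q' i)) := by
      rw [← hJc, hf q]
      have e2 : ∀ q' : Fin (2 ^ r) → Fin (2 ^ m), ∑ i, (f i (q i) - f i (q' i)) =
          ∑ i, f i (q i) - J x (n + m) (dt m c q') (fun _ => θ) := by
        intro q'
        rw [hf q', Finset.sum_sub_distrib]
      rw [Finset.sum_congr rfl fun q' _ => e2 q', Finset.sum_sub_distrib, smul_sub,
        Finset.sum_const, Finset.card_univ, ← Nat.cast_smul_eq_nsmul ℝ, smul_smul, hcard,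
        inv_mul_cancel₀ hN0.ne', one_smul]
      rfl
    rw [e1, norm_smul, Real.norm_of_nonneg (by positivity)]
    exact mul_le_mul_of_nonneg_left (norm_sum_le _ _) (by positivity)
  have h2 : av m (fun d => ‖J x (n + m) d (fun _ => θ) - J x n c (fun _ => θ)‖) c ≤
      N⁻¹ * (N⁻¹ * ∑ p : (Fin (2 ^ r) → Fin (2 ^ m)) × (Fin (2 ^ r) → Fin (2 ^ m)),
        ‖∑ i, (f i (p.1 i) - f i (p.2 i))‖) := by
    unfold av
    rw [smul_eq_mul]
    refine mul_le_mul_of_nonneg_left ?_ (by positivity)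
    rw [Fintype.sum_prod_type, Finset.mul_sum]
    exact Finset.sum_le_sum fun q _ => h1 q
  have h3 : ∀ p : (Fin (2 ^ r) → Fin (2 ^ m)) × (Fin (2 ^ r) → Fin (2 ^ m)),
      sg (fun i => f i (p.1 i) - f i (p.2 i)) ≤ 2 * M * γ ^ r := by
    intro p
    have e1 := hRC r (n + m) (dt m c p.1)
    have e2 := hRC r (n + m) (dt m c p.2)
    have e3 := sg_sub (fun i => f i (p.1 i)) (fun i => f i (p.2 i))
    have e4 : sg (fun i => f i (p.1 i)) ≤ M * γ ^ r := e1
    have e5 : sg (fun i => f i (p.2 i)) ≤ M * γ ^ r := e2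
    linarith
  have hcard2 : ((Fintype.card ((Fin (2 ^ r) → Fin (2 ^ m)) × (Fin (2 ^ r) → Fin (2 ^ m))) : ℕ) : ℝ)
      = N * N := by
    rw [Fintype.card_prod]
    push_cast [hcard]
    rfl
  have h4 : ∑ p : (Fin (2 ^ r) → Fin (2 ^ m)) × (Fin (2 ^ r) → Fin (2 ^ m)),
      ‖∑ i, (f i (p.1 i) - f i (p.2 i))‖ ≤ N * N * (2 * M * γ ^ r) := by
    rw [sym_sum f]
    calc _ ≤ ∑ _p : (Fin (2 ^ r) → Fin (2 ^ m)) × (Fin (2 ^ r) → Fin (2 ^ m)),
          (2 * M * γ ^ r) := Finset.sum_le_sum fun p _ => h3 p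
      _ = _ := by
        rw [Finset.sum_const, Finset.card_univ, nsmul_eq_mul, hcard2]
  calc av m (fun d => ‖J x (n + m) d (fun _ => θ) - J x n c (fun _ => θ)‖) c
      ≤ N⁻¹ * (N⁻¹ * ∑ p : (Fin (2 ^ r) → Fin (2 ^ m)) × (Fin (2 ^ r) → Fin (2 ^ m)),
        ‖∑ i, (f i (p.1 i) - f i (p.2 i))‖) := h2
    _ ≤ N⁻¹ * (N⁻¹ * (N * N * (2 * M * γ ^ r))) := by gcongr
    _ = 2 * M * γ ^ r := by
        field_simp

end Pool.Agent.BC.H9
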